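import Mathlib

/-!
# RIDGE (K_POT of helper21, section 5): the canonical covector of a body

`rid rho n0 A` is the minimiser of the sum of the squares of `m . A_b` plus `rho ^ 2` times the
square of `m`, over the covectors `m` with `m n0 = 1`.  Here `A_b` is the column `b` of `A`.
`ridge`: for one of the `c + 1` scales `rho0 / G ^ (2 i)` the minimiser is stable (only the gap of
the eigenvalues of `A * A^T` at this scale is used).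
-/

open Matrix

namespace Pool.Ridge

variable {c : ℕ}

/-- The matrix of the ridge form. -/
noncomputable def Qm (ρ : ℝ) (A : Matrix (Fin c) (Fin c) ℝ) : Matrix (Fin c) (Fin c) ℝ :=
  A * Aᵀ + (ρ ^ 2) • (1 : Matrix (Fin c) (Fin c) ℝ)

/-- The canonical covector. -/
noncomputable def rid (ρ : ℝ) (n0 : Fin c) (A : Matrix (Fin c) (Fin c) ℝ) : Fin c → ℝ :=
  fun j => (Qm ρ A)⁻¹ j n0 / (Qm ρ A)⁻¹ n0 n0

/-- The least value of the ridge form. -/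
noncomputable def lam (ρ : ℝ) (n0 : Fin c) (A : Matrix (Fin c) (Fin c) ℝ) : ℝ :=
  ((Qm ρ A)⁻¹ n0 n0)⁻¹

theorem Qm_pos {ρ : ℝ} (hρ : 0 < ρ) (A : Matrix (Fin c) (Fin c) ℝ) : (Qm ρ A).PosDef := by
  have h1 : (A * Aᵀ).PosSemidef := by
    simpa using Matrix.posSemidef_self_mul_conjTranspose A
  have h2 : ((ρ ^ 2) • (1 : Matrix (Fin c) (Fin c) ℝ)).PosDef :=
    Matrix.PosDef.smul Matrix.PosDef.one (by positivity)
  exact Matrix.PosDef.posSemidef_add h1 h2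

theorem inv_pos' {ρ : ℝ} (hρ : 0 < ρ) (n0 : Fin c) (A : Matrix (Fin c) (Fin c) ℝ) :
    0 < (Qm ρ A)⁻¹ n0 n0 := (Qm_pos hρ A).inv.diag_pos

theorem lam_pos {ρ : ℝ} (hρ : 0 < ρ) (n0 : Fin c) (A : Matrix (Fin c) (Fin c) ℝ) :
    0 < lam ρ n0 A := inv_pos.2 (inv_pos' hρ n0 A)

theorem rid_one {ρ : ℝ} (hρ : 0 < ρ) (n0 : Fin c) (A : Matrix (Fin c) (Fin c) ℝ) :
    rid ρ n0 A n0 = 1 := div_self (inv_pos' hρ n0 A).ne'

theorem Q_rid {ρ : ℝ} (hρ : 0 < ρ) (n0 : Fin c) (A : Matrix (Fin c) (Fin c) ℝ) :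
    Qm ρ A *ᵥ rid ρ n0 A = lam ρ n0 A • (Pi.single n0 1 : Fin c → ℝ) := by
  have hu : IsUnit (Qm ρ A).det := (Matrix.isUnit_iff_isUnit_det _).1 (Qm_pos hρ A).isUnit
  have h1 : rid ρ n0 A = lam ρ n0 A • ((Qm ρ A)⁻¹ *ᵥ (Pi.single n0 1 : Fin c → ℝ)) := by
    funext j
    simp [rid, lam, div_eq_inv_mul]
  rw [h1, mulVec_smul, mulVec_mulVec, Matrix.mul_nonsing_inv _ hu, one_mulVec]

/-- The bilinear form. -/
theorem bil (ρ : ℝ) (A : Matrix (Fin c) (Fin c) ℝ) (m k : Fin c → ℝ) :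
    m ⬝ᵥ (Qm ρ A *ᵥ k) = (m ᵥ* A) ⬝ᵥ (k ᵥ* A) + ρ ^ 2 * (m ⬝ᵥ k) := by
  unfold Qm
  rw [add_mulVec, dotProduct_add, smul_mulVec, one_mulVec, ← mulVec_mulVec, dotProduct_smul,
    dotProduct_mulVec, mulVec_transpose, smul_eq_mul]

theorem quad (ρ : ℝ) (A : Matrix (Fin c) (Fin c) ℝ) (m : Fin c → ℝ) :
    m ⬝ᵥ (Qm ρ A *ᵥ m) = ∑ b, ((m ᵥ* A) b) ^ 2 + ρ ^ 2 * ∑ j, m j ^ 2 := by
  rw [bil]
  simp only [dotProduct, sq]

theorem dot_rid {ρ : ℝ} (hρ : 0 < ρ) (n0 : Fin c) (A : Matrix (Fin c) (Fin c) ℝ)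
    (m : Fin c → ℝ) : m ⬝ᵥ (Qm ρ A *ᵥ rid ρ n0 A) = lam ρ n0 A * m n0 := by
  rw [Q_rid hρ, dotProduct_smul, smul_eq_mul]
  simp

/-- Minimality. -/
theorem lam_le {ρ : ℝ} (hρ : 0 < ρ) (n0 : Fin c) (A : Matrix (Fin c) (Fin c) ℝ)
    (m : Fin c → ℝ) (hm : m n0 = 1) :
    lam ρ n0 A ≤ ∑ b, ((m ᵥ* A) b) ^ 2 + ρ ^ 2 * ∑ j, m j ^ 2 := by
  have e1 : (m - rid ρ n0 A) n0 = 0 := by simp [hm, rid_one hρ]
  have e2 := dot_rid hρ n0 A (m - rid ρ n0 A)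
  rw [e1, mul_zero] at e2
  have e3 := dot_rid hρ n0 A m
  rw [hm, mul_one] at e3
  have e4 : 0 ≤ (m - rid ρ n0 A) ⬝ᵥ (Qm ρ A *ᵥ (m - rid ρ n0 A)) := by
    rw [quad]
    positivity
  have e5 : (m - rid ρ n0 A) ⬝ᵥ (Qm ρ A *ᵥ m) = m ⬝ᵥ (Qm ρ A *ᵥ (m - rid ρ n0 A)) := by
    rw [bil, bil, dotProduct_comm (m - rid ρ n0 A) m,
      dotProduct_comm ((m - rid ρ n0 A) ᵥ* A)]
  rw [mulVec_sub, dotProduct_sub, e2, sub_zero, e5, mulVec_sub, dotProduct_sub, e3, quad] at e4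
  linarith

theorem lam_eq {ρ : ℝ} (hρ : 0 < ρ) (n0 : Fin c) (A : Matrix (Fin c) (Fin c) ℝ) :
    ∑ b, ((rid ρ n0 A ᵥ* A) b) ^ 2 + ρ ^ 2 * ∑ j, rid ρ n0 A j ^ 2 = lam ρ n0 A := by
  rw [← quad, dot_rid hρ, rid_one hρ, mul_one]

/-- Spectral form of `A * A^T`. -/
theorem spec (A : Matrix (Fin c) (Fin c) ℝ) :
    ∃ (U : Matrix (Fin c) (Fin c) ℝ) (μ : Fin c → ℝ), Uᵀ * U = 1 ∧ U * Uᵀ = 1 ∧
      A * Aᵀ = U * diagonal μ * Uᵀ ∧ ∀ j, 0 ≤ μ j := by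
  have hP : (A * Aᵀ).PosSemidef := by
    simpa using Matrix.posSemidef_self_mul_conjTranspose A
  have hH := hP.isHermitian
  have hs : star (hH.eigenvectorUnitary : Matrix (Fin c) (Fin c) ℝ)
      = (hH.eigenvectorUnitary : Matrix (Fin c) (Fin c) ℝ)ᵀ := by
    rw [Matrix.star_eq_conjTranspose]
    ext i j
    simp
  refine ⟨(hH.eigenvectorUnitary : Matrix (Fin c) (Fin c) ℝ), hH.eigenvalues, ?_, ?_, ?_,
    fun j => hP.eigenvalues_nonneg j⟩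
  · rw [← hs]; exact Unitary.coe_star_mul_self _
  · rw [← hs]; exact Unitary.coe_mul_star_self _
  · have h := hH.spectral_theorem
    rw [Unitary.conjStarAlgAut_apply, hs] at h
    exact h

/-- The gap gives the bound of `A^T n` by `Q n`. -/
theorem gap_bd {ρ G : ℝ} (hG : 0 < G) (hρ : 0 < ρ) (A U : Matrix (Fin c) (Fin c) ℝ)
    (μ : Fin c → ℝ) (hU : Uᵀ * U = 1) (hU' : U * Uᵀ = 1) (hs : A * Aᵀ = U * diagonal μ * Uᵀ)
    (hμ : ∀ j, 0 ≤ μ j) (hgap : ∀ j, μ j ≤ ρ ^ 2 / G ^ 2 ∨ ρ ^ 2 * G ^ 2 ≤ μ j)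
    (n : Fin c → ℝ) :
    (∑ b, ((n ᵥ* A) b) ^ 2) * (ρ ^ 2 * G ^ 2) ≤ ∑ j, ((Qm ρ A *ᵥ n) j) ^ 2 := by
  set y : Fin c → ℝ := Uᵀ *ᵥ n with hy
  have h1 : ∑ b, ((n ᵥ* A) b) ^ 2 = ∑ j, μ j * y j ^ 2 := by
    have e1 : ∑ b, ((n ᵥ* A) b) ^ 2 = n ⬝ᵥ ((A * Aᵀ) *ᵥ n) := by
      rw [← mulVec_mulVec, dotProduct_mulVec, mulVec_transpose]
      simp only [dotProduct, sq]
    rw [e1, hs, Matrix.mul_assoc, ← mulVec_mulVec, ← mulVec_mulVec, dotProduct_mulVec,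
      ← mulVec_transpose U n, ← hy]
    simp only [dotProduct, mulVec_diagonal]
    refine Finset.sum_congr rfl fun j _ => by ring
  have h2 : Qm ρ A *ᵥ n = U *ᵥ (fun j => (μ j + ρ ^ 2) * y j) := by
    have e1 : (fun j => (μ j + ρ ^ 2) * y j) = diagonal μ *ᵥ y + (ρ ^ 2) • y := by
      funext j
      simp only [mulVec_diagonal, Pi.add_apply, Pi.smul_apply, smul_eq_mul]
      ring
    rw [e1, mulVec_add, mulVec_smul, hy, mulVec_mulVec, mulVec_mulVec, mulVec_mulVec, hU',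
      ← hs]
    unfold Qm
    rw [add_mulVec, smul_mulVec]
  have h3 : ∑ j, ((Qm ρ A *ᵥ n) j) ^ 2 = ∑ j, ((μ j + ρ ^ 2) * y j) ^ 2 := by
    have e1 : ∑ j, ((Qm ρ A *ᵥ n) j) ^ 2 = (Qm ρ A *ᵥ n) ⬝ᵥ (Qm ρ A *ᵥ n) := by
      simp only [dotProduct, sq]
    rw [e1, h2, dotProduct_mulVec, ← mulVec_transpose, mulVec_mulVec, hU, one_mulVec]
    simp only [dotProduct, sq]
  rw [h1, h3, Finset.sum_mul]
  refine Finset.sum_le_sum fun j _ => ?_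
  have hk : μ j * (ρ ^ 2 * G ^ 2) ≤ (μ j + ρ ^ 2) ^ 2 := by
    have hρ2 : 0 < ρ ^ 2 := by positivity
    rcases hgap j with h | h
    · have h' : μ j * G ^ 2 ≤ ρ ^ 2 := by
        rwa [le_div_iff₀ (by positivity)] at h
      nlinarith [hμ j, mul_nonneg (hμ j) hρ2.le, sq_nonneg (μ j)]
    · nlinarith [hμ j, mul_nonneg (hμ j) hρ2.le, mul_le_mul_of_nonneg_left h (hμ j)]
  calc μ j * y j ^ 2 * (ρ ^ 2 * G ^ 2) = (μ j * (ρ ^ 2 * G ^ 2)) * y j ^ 2 := by ring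
    _ ≤ (μ j + ρ ^ 2) ^ 2 * y j ^ 2 := mul_le_mul_of_nonneg_right hk (sq_nonneg _)
    _ = ((μ j + ρ ^ 2) * y j) ^ 2 := by ring

/-- One of the `c + 1` scales has a gap. -/
theorem gap_ex {ρ0 G : ℝ} (h0 : 0 < ρ0) (hG : 1 ≤ G) (μ : Fin c → ℝ) :
    ∃ i : Fin (c + 1), ∀ j, μ j ≤ (ρ0 / G ^ (2 * (i : ℕ))) ^ 2 / G ^ 2 ∨
      (ρ0 / G ^ (2 * (i : ℕ))) ^ 2 * G ^ 2 ≤ μ j := by
  by_contra hcon
  push Not at hcon
  choose f hf using hcon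
  have hG0 : 0 < G := by linarith
  have hni : ¬ Function.Injective f := by
    intro hi
    have := Fintype.card_le_of_injective f hi
    simp at this
  have key : ∀ i k : Fin (c + 1), i < k → f i = f k → False := by
    intro i k hik hfe
    have h1 := (hf i).1
    have h2 := (hf k).2
    rw [hfe] at h1
    have h3 : (ρ0 / G ^ (2 * (k : ℕ))) ^ 2 * G ^ 2 ≤ (ρ0 / G ^ (2 * (i : ℕ))) ^ 2 / G ^ 2 := by
      rw [le_div_iff₀ (by positivity)]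
      have h4 : ρ0 / G ^ (2 * (k : ℕ)) * G ^ 2 ≤ ρ0 / G ^ (2 * (i : ℕ)) := by
        rw [div_mul_eq_mul_div, div_le_div_iff₀ (by positivity) (by positivity)]
        have h5 : 2 + 2 * (i : ℕ) ≤ 2 * (k : ℕ) := by
          have : (i : ℕ) < (k : ℕ) := hik
          omega
        have h6 : G ^ (2 + 2 * (i : ℕ)) ≤ G ^ (2 * (k : ℕ)) := pow_le_pow_right₀ hG h5
        calc ρ0 * G ^ 2 * G ^ (2 * (i : ℕ)) = ρ0 * G ^ (2 + 2 * (i : ℕ)) := by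
              rw [pow_add]; ring
          _ ≤ ρ0 * G ^ (2 * (k : ℕ)) := mul_le_mul_of_nonneg_left h6 h0.le
      calc (ρ0 / G ^ (2 * (k : ℕ))) ^ 2 * G ^ 2 * G ^ 2
          = (ρ0 / G ^ (2 * (k : ℕ)) * G ^ 2) ^ 2 := by ring
        _ ≤ (ρ0 / G ^ (2 * (i : ℕ))) ^ 2 := by
          apply pow_le_pow_left₀ (by positivity) h4
    linarith
  apply hni
  intro i k hfe
  rcases lt_trichotomy i k with h | h | h
  · exact (key i k h hfe).elim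
  · exact h
  · exact (key k i h hfe.symm).elim

/-- Stability of the canonical covector: only the size of `A^T n` for the first body is used. -/
theorem stab {ρ : ℝ} (hρ : 0 < ρ) (n0 : Fin c) (A A' B B' : Matrix (Fin c) (Fin c) ℝ)
    (hB : A' = A * B) (hB' : A = A' * B') {K t : ℝ} (hK : 0 ≤ K) (ht : 0 ≤ t)
    (hBK : ∀ i j, |B i j| ≤ K) (hBK' : ∀ i j, |B' i j| ≤ K)
    (hS : ∑ b, ((rid ρ n0 A ᵥ* A) b) ^ 2 ≤ (ρ * t) ^ 2) (j : Fin c) :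
    |rid ρ n0 A j - rid ρ n0 A' j| ≤ c * K * t := by
  have hc0 : (0 : ℝ) < c := by
    have : 0 < c := lt_of_le_of_lt (Nat.zero_le _) n0.2
    exact_mod_cast this
  obtain ⟨n, hn⟩ : ∃ n, n = rid ρ n0 A := ⟨_, rfl⟩
  obtain ⟨n', hn'⟩ : ∃ n', n' = rid ρ n0 A' := ⟨_, rfl⟩
  obtain ⟨d, hd⟩ : ∃ d, d = n - n' := ⟨_, rfl⟩
  have hd0 : d n0 = 0 := by simp [hd, hn, hn', rid_one hρ]
  have e1 := dot_rid hρ n0 A d
  rw [hd0, mul_zero, ← hn, bil] at e1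
  have e2 := dot_rid hρ n0 A' d
  rw [hd0, mul_zero, ← hn', bil] at e2
  have e3 : (d ᵥ* A') ⬝ᵥ (d ᵥ* A') + ρ ^ 2 * (d ⬝ᵥ d)
      = (d ᵥ* A') ⬝ᵥ (n ᵥ* A') - (d ᵥ* A) ⬝ᵥ (n ᵥ* A) := by
    have h1 : (d ᵥ* A') ⬝ᵥ (d ᵥ* A') = (d ᵥ* A') ⬝ᵥ (n ᵥ* A') - (d ᵥ* A') ⬝ᵥ (n' ᵥ* A') := by
      rw [← dotProduct_sub, ← sub_vecMul, ← hd]
    have h2 : d ⬝ᵥ d = d ⬝ᵥ n - d ⬝ᵥ n' := by
      rw [← dotProduct_sub, ← hd]
    rw [h1, h2]
    linarith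
  obtain ⟨x, hx⟩ : ∃ x, x = d ᵥ* A' := ⟨_, rfl⟩
  obtain ⟨a, ha⟩ : ∃ a, a = n ᵥ* A := ⟨_, rfl⟩
  have e4 : n ᵥ* A' = a ᵥ* B := by rw [ha, vecMul_vecMul, ← hB]
  have e5 : d ᵥ* A = x ᵥ* B' := by rw [hx, vecMul_vecMul, ← hB']
  rw [e4, e5, ← hx, ← ha] at e3
  rw [← hn, ← ha] at hS
  have e6 : x ⬝ᵥ (a ᵥ* B) ≤ K * ((∑ b, |x b|) * (∑ i, |a i|)) := by
    calc x ⬝ᵥ (a ᵥ* B) = ∑ b, ∑ i, x b * (a i * B i b) := by
          simp only [dotProduct, vecMul, Finset.mul_sum]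
      _ ≤ ∑ b, ∑ i, K * (|x b| * |a i|) := by
          refine Finset.sum_le_sum fun b _ => Finset.sum_le_sum fun i _ => ?_
          calc x b * (a i * B i b) ≤ |x b * (a i * B i b)| := le_abs_self _
            _ = |x b| * |a i| * |B i b| := by rw [abs_mul, abs_mul, mul_assoc]
            _ ≤ |x b| * |a i| * K :=
                mul_le_mul_of_nonneg_left (hBK i b) (mul_nonneg (abs_nonneg _) (abs_nonneg _))
            _ = K * (|x b| * |a i|) := mul_comm _ _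
      _ = K * ((∑ b, |x b|) * (∑ i, |a i|)) := by
          rw [Finset.sum_mul_sum, Finset.mul_sum]
          refine Finset.sum_congr rfl fun b _ => ?_
          rw [Finset.mul_sum]
  have e7 : -((x ᵥ* B') ⬝ᵥ a) ≤ K * ((∑ b, |x b|) * (∑ i, |a i|)) := by
    calc -((x ᵥ* B') ⬝ᵥ a) = ∑ i, ∑ b, -((x b * B' b i) * a i) := by
          simp only [dotProduct, vecMul, Finset.sum_mul, Finset.sum_neg_distrib]
      _ ≤ ∑ i, ∑ b, K * (|x b| * |a i|) := by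
          refine Finset.sum_le_sum fun i _ => Finset.sum_le_sum fun b _ => ?_
          calc -((x b * B' b i) * a i) ≤ |(x b * B' b i) * a i| := neg_le_abs _
            _ = |x b| * |a i| * |B' b i| := by rw [abs_mul, abs_mul, mul_right_comm]
            _ ≤ |x b| * |a i| * K :=
                mul_le_mul_of_nonneg_left (hBK' b i) (mul_nonneg (abs_nonneg _) (abs_nonneg _))
            _ = K * (|x b| * |a i|) := mul_comm _ _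
      _ = K * ((∑ b, |x b|) * (∑ i, |a i|)) := by
          rw [Finset.sum_comm, Finset.sum_mul_sum, Finset.mul_sum]
          refine Finset.sum_congr rfl fun b _ => ?_
          rw [Finset.mul_sum]
  have cs : ∀ z : Fin c → ℝ, (∑ b, |z b|) ^ 2 ≤ c * ∑ b, z b ^ 2 := by
    intro z
    have h := sq_sum_le_card_mul_sum_sq (s := (Finset.univ : Finset (Fin c)))
      (f := fun b => |z b|)
    simpa using h
  have cx := cs x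
  have ca := cs a
  have hdd : x ⬝ᵥ x = ∑ b, x b ^ 2 := by simp only [dotProduct, sq]
  have hdd' : d ⬝ᵥ d = ∑ b, d b ^ 2 := by simp only [dotProduct, sq]
  rw [hdd, hdd'] at e3
  generalize (∑ b, |x b|) = P at e6 e7 cx
  generalize (∑ i, |a i|) = R at e6 e7 ca
  generalize (∑ b, x b ^ 2) = X at e3 cx
  have hdj : d j ^ 2 ≤ ∑ b, d b ^ 2 :=
    Finset.single_le_sum (f := fun b => d b ^ 2) (fun _ _ => sq_nonneg _) (Finset.mem_univ j)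
  generalize (∑ b, d b ^ 2) = D at e3 hdj
  generalize (∑ b, a b ^ 2) = S at hS ca
  have e8 : ρ ^ 2 * D ≤ c * K ^ 2 * R ^ 2 := by
    have h1 : X + ρ ^ 2 * D ≤ 2 * K * (P * R) := by linarith
    have h2 : (c : ℝ) * (2 * K * (P * R)) ≤ P ^ 2 + c ^ 2 * K ^ 2 * R ^ 2 := by
      have h := sq_nonneg (P - c * K * R)
      linarith [show (P - c * K * R) ^ 2 = P ^ 2 + c ^ 2 * K ^ 2 * R ^ 2
        - c * (2 * K * (P * R)) by ring]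
    have h3 : (c : ℝ) * (ρ ^ 2 * D) ≤ c * (c * K ^ 2 * R ^ 2) := by
      have h4 := mul_le_mul_of_nonneg_left h1 hc0.le
      rw [mul_add] at h4
      linarith [show (c : ℝ) * (c * K ^ 2 * R ^ 2) = c ^ 2 * K ^ 2 * R ^ 2 by ring]
    exact le_of_mul_le_mul_left h3 hc0
  have e10 : ρ ^ 2 * d j ^ 2 ≤ ρ ^ 2 * (c * K * t) ^ 2 := by
    calc ρ ^ 2 * d j ^ 2 ≤ ρ ^ 2 * D := mul_le_mul_of_nonneg_left hdj (sq_nonneg _)
      _ ≤ c * K ^ 2 * R ^ 2 := e8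
      _ ≤ c * K ^ 2 * (c * (ρ * t) ^ 2) :=
          mul_le_mul_of_nonneg_left (ca.trans (mul_le_mul_of_nonneg_left hS hc0.le))
            (by positivity)
      _ = ρ ^ 2 * (c * K * t) ^ 2 := by ring
  have e11 : rid ρ n0 A j - rid ρ n0 A' j = d j := by rw [hd, hn, hn']; rfl
  rw [e11]
  exact abs_le_of_sq_le_sq (le_of_mul_le_mul_left e10 (by positivity)) (by positivity)

/-- The least value is small if a covector exists. -/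
theorem lam_small (n0 : Fin c) {ρ M : ℝ} (hρ : 0 < ρ) (hM : 1 ≤ M)
    (A : Matrix (Fin c) (Fin c) ℝ) (m : Fin c → ℝ) (hm : m n0 = 1) (hmM : ∀ j, |m j| ≤ M)
    (hmA : ∀ b, |∑ j, m j * A j b| ≤ ρ) : lam ρ n0 A ≤ 2 * c * M ^ 2 * ρ ^ 2 := by
  have h1 := lam_le hρ n0 A m hm
  have h2 : ∑ b, ((m ᵥ* A) b) ^ 2 ≤ c * ρ ^ 2 := by
    calc ∑ b, ((m ᵥ* A) b) ^ 2 ≤ ∑ _b : Fin c, ρ ^ 2 := by
          refine Finset.sum_le_sum fun b _ => ?_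
          have h3 : (m ᵥ* A) b = ∑ j, m j * A j b := rfl
          rw [h3, ← sq_abs]
          exact pow_le_pow_left₀ (abs_nonneg _) (hmA b) 2
      _ = c * ρ ^ 2 := by simp
  have h3 : ∑ j, m j ^ 2 ≤ c * M ^ 2 := by
    calc ∑ j, m j ^ 2 ≤ ∑ _j : Fin c, M ^ 2 := by
          refine Finset.sum_le_sum fun j _ => ?_
          rw [← sq_abs]
          exact pow_le_pow_left₀ (abs_nonneg _) (hmM j) 2
      _ = c * M ^ 2 := by simp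
  have h4 : ρ ^ 2 * ∑ j, m j ^ 2 ≤ ρ ^ 2 * (c * M ^ 2) :=
    mul_le_mul_of_nonneg_left h3 (sq_nonneg _)
  have h6 : (1 : ℝ) ≤ M ^ 2 := one_le_pow₀ hM
  have h5 : (c : ℝ) * ρ ^ 2 * 1 ≤ c * ρ ^ 2 * M ^ 2 :=
    mul_le_mul_of_nonneg_left h6 (by positivity)
  linarith

/-- **RIDGE.**  One of the `c + 1` scales is good for `A`. -/
theorem ridge (n0 : Fin c) {ρ0 G : ℝ} (h0 : 0 < ρ0) (hG : 1 ≤ G)
    (A : Matrix (Fin c) (Fin c) ℝ) :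
    ∃ i : Fin (c + 1), ∀ ρ : ℝ, ρ = ρ0 / G ^ (2 * (i : ℕ)) →
      ∀ M : ℝ, 1 ≤ M → ∀ m : Fin c → ℝ, m n0 = 1 → (∀ j, |m j| ≤ M) →
      (∀ b, |∑ j, m j * A j b| ≤ ρ) →
      rid ρ n0 A n0 = 1 ∧
      (∀ j, |rid ρ n0 A j| ≤ 2 * c * M) ∧
      (∀ b, |∑ j, rid ρ n0 A j * A j b| ≤ 2 * c * M ^ 2 * ρ / G) ∧
      ∀ A' B B' : Matrix (Fin c) (Fin c) ℝ, A' = A * B → A = A' * B' →
        ∀ K : ℝ, 0 ≤ K → (∀ i j, |B i j| ≤ K) → (∀ i j, |B' i j| ≤ K) →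
        ∀ j, |rid ρ n0 A j - rid ρ n0 A' j| ≤ 2 * c ^ 2 * K * M ^ 2 / G := by
  obtain ⟨U, μ, hU, hU', hs, hμ⟩ := spec A
  obtain ⟨i, hi⟩ := gap_ex h0 hG μ
  have hG0 : 0 < G := by linarith
  have hc1 : (1 : ℝ) ≤ c := by
    have : 0 < c := lt_of_le_of_lt (Nat.zero_le _) n0.2
    exact_mod_cast this
  refine ⟨i, ?_⟩
  intro ρ hρd M hM m hm hmM hmA
  have hρ : 0 < ρ := by rw [hρd]; positivity
  rw [← hρd] at hi
  have hM0 : 0 < M := by linarith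
  have hlam := lam_small n0 hρ hM A m hm hmM hmA
  have hval := lam_eq hρ n0 A
  have hS0 : 0 ≤ ∑ b, ((rid ρ n0 A ᵥ* A) b) ^ 2 := Finset.sum_nonneg fun _ _ => sq_nonneg _
  have hN0 : 0 ≤ ∑ j, rid ρ n0 A j ^ 2 := Finset.sum_nonneg fun _ _ => sq_nonneg _
  have hgap := gap_bd hG0 hρ A U μ hU hU' hs hμ hi (rid ρ n0 A)
  have hQn : ∑ j, ((Qm ρ A *ᵥ rid ρ n0 A) j) ^ 2 = lam ρ n0 A ^ 2 := by
    rw [Q_rid hρ]
    simp only [Pi.smul_apply, smul_eq_mul, mul_pow]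
    rw [← Finset.mul_sum, Finset.sum_eq_single n0]
    · simp
    · intro b _ hb
      simp [Pi.single_eq_of_ne hb]
    · simp
  rw [hQn] at hgap
  have hlam0 := (lam_pos hρ n0 A).le
  have hlam2 : lam ρ n0 A ^ 2 ≤ (2 * c * M ^ 2 * ρ ^ 2) ^ 2 := pow_le_pow_left₀ hlam0 hlam 2
  have hSb : ∑ b, ((rid ρ n0 A ᵥ* A) b) ^ 2 ≤ (ρ * (2 * c * M ^ 2 / G)) ^ 2 := by
    have h1 : (ρ * (2 * c * M ^ 2 / G)) ^ 2 = (2 * c * M ^ 2 * ρ ^ 2) ^ 2 / (ρ ^ 2 * G ^ 2) := by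
      field_simp
    rw [h1, le_div_iff₀ (by positivity)]
    exact hgap.trans hlam2
  refine ⟨rid_one hρ n0 A, ?_, ?_, ?_⟩
  · intro j
    have h2 : rid ρ n0 A j ^ 2 ≤ ∑ j, rid ρ n0 A j ^ 2 :=
      Finset.single_le_sum (f := fun j => rid ρ n0 A j ^ 2) (fun _ _ => sq_nonneg _)
        (Finset.mem_univ j)
    have h3 := mul_le_mul_of_nonneg_left h2 (sq_nonneg ρ)
    have h4 : ρ ^ 2 * rid ρ n0 A j ^ 2 ≤ ρ ^ 2 * (2 * c * M ^ 2) := by linarith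
    have h5 : rid ρ n0 A j ^ 2 ≤ 2 * c * M ^ 2 := le_of_mul_le_mul_left h4 (by positivity)
    have h6 : 2 * (c : ℝ) * M ^ 2 ≤ (2 * c * M) ^ 2 := by
      have h7 : (1 : ℝ) ≤ 2 * c := by linarith
      calc 2 * (c : ℝ) * M ^ 2 = 1 * (2 * c * M ^ 2) := by ring
        _ ≤ (2 * c) * (2 * c * M ^ 2) := mul_le_mul_of_nonneg_right h7 (by positivity)
        _ = (2 * c * M) ^ 2 := by ring
    exact abs_le_of_sq_le_sq (h5.trans h6) (by positivity)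
  · intro b
    have h2 : ((rid ρ n0 A ᵥ* A) b) ^ 2 ≤ ∑ b, ((rid ρ n0 A ᵥ* A) b) ^ 2 :=
      Finset.single_le_sum (f := fun b => ((rid ρ n0 A ᵥ* A) b) ^ 2) (fun _ _ => sq_nonneg _)
        (Finset.mem_univ b)
    have h3 : ∑ j, rid ρ n0 A j * A j b = (rid ρ n0 A ᵥ* A) b := rfl
    have h4 : 2 * c * M ^ 2 * ρ / G = ρ * (2 * c * M ^ 2 / G) := by ring
    rw [h3, h4]
    exact abs_le_of_sq_le_sq (h2.trans hSb) (by positivity)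
  · intro A' B B' hB hB' K hK hBK hBK' j
    have h := stab hρ n0 A A' B B' hB hB' hK (t := 2 * c * M ^ 2 / G) (by positivity) hBK hBK'
      hSb j
    calc _ ≤ c * K * (2 * c * M ^ 2 / G) := h
      _ = 2 * c ^ 2 * K * M ^ 2 / G := by ring

/-- The form of K_POT, with the matrices `A⁻¹ * A'` and `A'⁻¹ * A`. -/
theorem ridge_inv (n0 : Fin c) {ρ0 G : ℝ} (h0 : 0 < ρ0) (hG : 1 ≤ G)
    (A : Matrix (Fin c) (Fin c) ℝ) (hA : A.det ≠ 0) :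
    ∃ i : Fin (c + 1), ∀ ρ : ℝ, ρ = ρ0 / G ^ (2 * (i : ℕ)) →
      ∀ M : ℝ, 1 ≤ M → ∀ m : Fin c → ℝ, m n0 = 1 → (∀ j, |m j| ≤ M) →
      (∀ b, |∑ j, m j * A j b| ≤ ρ) →
      rid ρ n0 A n0 = 1 ∧
      (∀ j, |rid ρ n0 A j| ≤ 2 * c * M) ∧
      (∀ b, |∑ j, rid ρ n0 A j * A j b| ≤ 2 * c * M ^ 2 * ρ / G) ∧
      ∀ A' : Matrix (Fin c) (Fin c) ℝ, A'.det ≠ 0 →
        ∀ K : ℝ, 0 ≤ K → (∀ i j, |(A⁻¹ * A') i j| ≤ K) → (∀ i j, |(A'⁻¹ * A) i j| ≤ K) →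
        ∀ j, |rid ρ n0 A j - rid ρ n0 A' j| ≤ 2 * c ^ 2 * K * M ^ 2 / G := by
  obtain ⟨i, hi⟩ := ridge n0 h0 hG A
  refine ⟨i, fun ρ hρ M hM m hm hmM hmA => ?_⟩
  obtain ⟨r1, r2, r3, r4⟩ := hi ρ hρ M hM m hm hmM hmA
  refine ⟨r1, r2, r3, fun A' hA' K hK h1 h2 j => ?_⟩
  exact r4 A' (A⁻¹ * A') (A'⁻¹ * A)
    (by rw [← Matrix.mul_assoc, Matrix.mul_nonsing_inv _ (Ne.isUnit hA), Matrix.one_mul])
    (by rw [← Matrix.mul_assoc, Matrix.mul_nonsing_inv _ (Ne.isUnit hA'), Matrix.one_mul])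
    K hK h1 h2 j

end Pool.Ridge
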