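import Mathlib

/-!
# UNI (K_POT of helper21): the covector with the minimal leading coordinate is unique

`Cv A j R t`: there is a covector `m` with `m j = 1`, `m l = 0` for `l > j`, entries at most `R`
and values at most `t` on the columns of `A`. `uni`: if there is none with a smaller leading
coordinate (for weaker thresholds), then the covector with the leading coordinate `j` is unique up
to `D`.
-/

set_option autoImplicit false

namespace Pool.Uni

open Finset

variable {c : ℕ}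

/-- A covector with the leading coordinate `j`. -/
def Cv (A : Matrix (Fin c) (Fin c) ℝ) (j : Fin c) (R t : ℝ) : Prop :=
  ∃ m : Fin c → ℝ, m j = 1 ∧ (∀ l, j < l → m l = 0) ∧ (∀ l, |m l| ≤ R) ∧
    ∀ b, |∑ l, m l * A l b| ≤ t

theorem Cv.mono {A : Matrix (Fin c) (Fin c) ℝ} {j : Fin c} {R R' t t' : ℝ} (h : Cv A j R t)
    (hR : R ≤ R') (ht : t ≤ t') : Cv A j R' t' := by
  obtain ⟨m, h1, h2, h3, h4⟩ := h
  exact ⟨m, h1, h2, fun l => (h3 l).trans hR, fun b => (h4 b).trans ht⟩

/-- A vector without a covector below: if `d` vanishes from `j` on, has values at most `2 t` on the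
columns, and there is no covector with a smaller leading coordinate, then `d` is at most `D`. -/
theorem small_of {A : Matrix (Fin c) (Fin c) ℝ} {C th D t : ℝ} {j : Fin c}
    (hA : ∀ i b, |A i b| ≤ C) (hC : 0 ≤ C) (h0 : 0 < th) (h1 : th ≤ 1) (hD : 0 < D)
    (ht : t ≤ D * th ^ (c + 1))
    (hno : ∀ j' < j, ¬ Cv A j' ((th⁻¹) ^ c) ((2 + c * C) * th)) (d : Fin c → ℝ)
    (hd : ∀ l, j ≤ l → d l = 0) (hdA : ∀ b, |∑ l, d l * A l b| ≤ 2 * t) (l : Fin c) :
    |d l| ≤ D := by
  classical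
  by_contra hcon
  push Not at hcon
  have hne : (Finset.univ : Finset (Fin c)).Nonempty := ⟨l, mem_univ _⟩
  obtain ⟨l0, -, hl0⟩ := Finset.exists_max_image Finset.univ (fun k => |d k|) hne
  obtain ⟨δ, hδ⟩ : ∃ δ, δ = |d l0| := ⟨_, rfl⟩
  have hDδ : D < δ := by
    rw [hδ]
    exact hcon.trans_le (hl0 l (mem_univ _))
  have hδ0 : 0 < δ := hD.trans hDδ
  have hle : ∀ k, |d k| ≤ δ := fun k => by rw [hδ]; exact hl0 k (mem_univ _)
  -- a missed interval
  have hmiss : ∃ i : Fin c, ∀ k, ¬ (th ^ ((i : ℕ) + 1) * δ ≤ |d k| ∧ |d k| < th ^ (i : ℕ) * δ) := by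
    by_contra hall
    push Not at hall
    choose g hg using hall
    have hinj : Function.Injective g := by
      intro a b hab
      by_contra hne'
      rcases lt_or_gt_of_ne hne' with hlt | hlt
      · have h3 : (a : ℕ) + 1 ≤ (b : ℕ) := hlt
        have h4 : th ^ (b : ℕ) ≤ th ^ ((a : ℕ) + 1) := pow_le_pow_of_le_one h0.le h1 h3
        have h5 := (hg a).1
        have h6 := (hg b).2
        rw [hab] at h5
        nlinarith [mul_le_mul_of_nonneg_right h4 hδ0.le]
      · have h3 : (b : ℕ) + 1 ≤ (a : ℕ) := hlt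
        have h4 : th ^ (a : ℕ) ≤ th ^ ((b : ℕ) + 1) := pow_le_pow_of_le_one h0.le h1 h3
        have h5 := (hg b).1
        have h6 := (hg a).2
        rw [hab] at h6
        nlinarith [mul_le_mul_of_nonneg_right h4 hδ0.le]
    obtain ⟨i, hi⟩ := (Finite.injective_iff_surjective.1 hinj) l0
    have h3 := (hg i).2
    rw [hi, ← hδ] at h3
    have h4 : th ^ (i : ℕ) ≤ 1 := pow_le_one₀ h0.le h1
    nlinarith [mul_le_mul_of_nonneg_right h4 hδ0.le]
  obtain ⟨i, hi⟩ := hmiss
  have hti : 0 < th ^ (i : ℕ) := pow_pos h0 _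
  -- the last large entry
  obtain ⟨j', hj'm, hj'⟩ := Finset.exists_max_image
    (Finset.univ.filter fun k => th ^ (i : ℕ) * δ ≤ |d k|) (fun k => k) ⟨l0, by
      rw [mem_filter]
      refine ⟨mem_univ _, ?_⟩
      rw [← hδ]
      have h4 : th ^ (i : ℕ) ≤ 1 := pow_le_one₀ h0.le h1
      nlinarith [mul_le_mul_of_nonneg_right h4 hδ0.le]⟩
  rw [mem_filter] at hj'm
  have hbig : th ^ (i : ℕ) * δ ≤ |d j'| := hj'm.2
  have hpos : 0 < |d j'| := (mul_pos hti hδ0).trans_le hbig
  have hdj' : d j' ≠ 0 := abs_pos.1 hpos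
  have hjj : j' < j := by
    by_contra hge
    exact hdj' (hd j' (not_lt.1 hge))
  have hafter : ∀ k, j' < k → |d k| < th ^ ((i : ℕ) + 1) * δ := by
    intro k hk
    by_contra hge
    push Not at hge
    by_cases hlt : |d k| < th ^ (i : ℕ) * δ
    · exact hi k ⟨hge, hlt⟩
    · push Not at hlt
      have := hj' k (by rw [mem_filter]; exact ⟨mem_univ _, hlt⟩)
      exact absurd hk (not_lt.2 this)
  refine hno j' hjj ⟨fun k => if k ≤ j' then d k / d j' else 0, ?_, ?_, ?_, ?_⟩
  · simp [hdj']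
  · intro k hk
    simp [not_le.2 hk]
  · intro k
    have hR0 : 0 ≤ (th⁻¹) ^ c := by positivity
    by_cases hk : k ≤ j'
    · simp only [hk, if_true]
      rw [abs_div, div_le_iff₀ hpos]
      have h3 : (1 : ℝ) ≤ (th⁻¹) ^ c * th ^ (i : ℕ) := by
        rw [inv_pow, inv_mul_eq_div, le_div_iff₀ (pow_pos h0 _), one_mul]
        exact pow_le_pow_of_le_one h0.le h1 i.2.le
      calc |d k| ≤ 1 * δ := by rw [one_mul]; exact hle k
        _ ≤ ((th⁻¹) ^ c * th ^ (i : ℕ)) * δ := mul_le_mul_of_nonneg_right h3 hδ0.le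
        _ = (th⁻¹) ^ c * (th ^ (i : ℕ) * δ) := by ring
        _ ≤ (th⁻¹) ^ c * |d j'| := mul_le_mul_of_nonneg_left hbig hR0
    · simp only [hk, if_false, abs_zero]
      exact hR0
  · intro b
    have e1 : ∑ k, (if k ≤ j' then d k / d j' else 0) * A k b
        = (∑ k, d k * A k b - ∑ k, (if k ≤ j' then 0 else d k) * A k b) / d j' := by
      rw [← Finset.sum_sub_distrib, Finset.sum_div]
      refine Finset.sum_congr rfl fun k _ => ?_
      by_cases hk : k ≤ j'
      · simp only [hk, if_true]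
        ring
      · simp only [hk, if_false]
        ring
    rw [e1, abs_div, div_le_iff₀ hpos]
    have e2 : |∑ k, (if k ≤ j' then 0 else d k) * A k b| ≤ c * (th ^ ((i : ℕ) + 1) * δ * C) := by
      calc |∑ k, (if k ≤ j' then 0 else d k) * A k b|
          ≤ ∑ k, |(if k ≤ j' then 0 else d k) * A k b| := Finset.abs_sum_le_sum_abs _ _
        _ ≤ ∑ _k : Fin c, th ^ ((i : ℕ) + 1) * δ * C := by
            refine Finset.sum_le_sum fun k _ => ?_
            have hp : 0 ≤ th ^ ((i : ℕ) + 1) * δ := by positivity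
            by_cases hk : k ≤ j'
            · simp only [hk, if_true, zero_mul, abs_zero]
              exact mul_nonneg hp hC
            · simp only [hk, if_false]
              rw [abs_mul]
              exact mul_le_mul (hafter k (not_le.1 hk)).le (hA k b) (abs_nonneg _) hp
        _ = c * (th ^ ((i : ℕ) + 1) * δ * C) := by simp
    have e3 : 2 * t ≤ 2 * th * (th ^ (i : ℕ) * δ) := by
      have h3 : th ^ (c + 1) ≤ th * th ^ (i : ℕ) := by
        rw [← pow_succ']
        exact pow_le_pow_of_le_one h0.le h1 (by have := i.2; omega)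
      have h4 : t ≤ δ * (th * th ^ (i : ℕ)) :=
        ht.trans ((mul_le_mul_of_nonneg_left h3 hD.le).trans
          (mul_le_mul_of_nonneg_right hDδ.le (by positivity)))
      linarith
    calc |∑ k, d k * A k b - ∑ k, (if k ≤ j' then 0 else d k) * A k b|
        ≤ |∑ k, d k * A k b| + |∑ k, (if k ≤ j' then 0 else d k) * A k b| := abs_sub _ _
      _ ≤ 2 * t + c * (th ^ ((i : ℕ) + 1) * δ * C) := add_le_add (hdA b) e2
      _ ≤ 2 * th * (th ^ (i : ℕ) * δ) + c * (th ^ ((i : ℕ) + 1) * δ * C) := by linarith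
      _ = (2 + c * C) * th * (th ^ (i : ℕ) * δ) := by ring
      _ ≤ (2 + c * C) * th * |d j'| :=
          mul_le_mul_of_nonneg_left hbig (by positivity)

/-- **UNI.** -/
theorem uni {A : Matrix (Fin c) (Fin c) ℝ} {C th D t : ℝ} {j : Fin c}
    (hA : ∀ i b, |A i b| ≤ C) (hC : 0 ≤ C) (h0 : 0 < th) (h1 : th ≤ 1) (hD : 0 < D)
    (ht : t ≤ D * th ^ (c + 1))
    (hno : ∀ j' < j, ¬ Cv A j' ((th⁻¹) ^ c) ((2 + c * C) * th)) (m m' : Fin c → ℝ)
    (hm : m j = 1) (hm0 : ∀ l, j < l → m l = 0) (hmA : ∀ b, |∑ l, m l * A l b| ≤ t)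
    (hm' : m' j = 1) (hm'0 : ∀ l, j < l → m' l = 0) (hm'A : ∀ b, |∑ l, m' l * A l b| ≤ t)
    (l : Fin c) : |m l - m' l| ≤ D := by
  refine small_of hA hC h0 h1 hD ht hno (fun k => m k - m' k) ?_ ?_ l
  · intro k hk
    rcases eq_or_lt_of_le hk with h | h
    · subst h
      simp [hm, hm']
    · simp [hm0 k h, hm'0 k h]
  · intro b
    have e : ∑ k, (m k - m' k) * A k b = ∑ k, m k * A k b - ∑ k, m' k * A k b := by
      rw [← Finset.sum_sub_distrib]
      exact Finset.sum_congr rfl fun k _ => by ring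
    rw [e]
    calc |∑ k, m k * A k b - ∑ k, m' k * A k b|
        ≤ |∑ k, m k * A k b| + |∑ k, m' k * A k b| := abs_sub _ _
      _ ≤ 2 * t := by linarith [hmA b, hm'A b]

/-- **UNI with a dilated comparison**: the second body is covered by the first one up to the factor
`K`; the second covector is small on the second body only. -/
theorem uni_tr {A A' : Matrix (Fin c) (Fin c) ℝ} {C th D t K : ℝ} {j : Fin c}
    (hA : ∀ i b, |A i b| ≤ C) (hC : 0 ≤ C) (h0 : 0 < th) (h1 : th ≤ 1) (hD : 0 < D)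
    (hK : 1 ≤ c * K) (ht0 : 0 ≤ t) (ht : c * K * t ≤ D * th ^ (c + 1))
    (hno : ∀ j' < j, ¬ Cv A j' ((th⁻¹) ^ c) ((2 + c * C) * th)) (B : Matrix (Fin c) (Fin c) ℝ)
    (hB : A = A' * B) (hBK : ∀ i b, |B i b| ≤ K) (m m' : Fin c → ℝ)
    (hm : m j = 1) (hm0 : ∀ l, j < l → m l = 0) (hmA : ∀ b, |∑ l, m l * A l b| ≤ t)
    (hm' : m' j = 1) (hm'0 : ∀ l, j < l → m' l = 0) (hm'A : ∀ b, |∑ l, m' l * A' l b| ≤ t)
    (l : Fin c) : |m l - m' l| ≤ D := by
  refine uni hA hC h0 h1 hD ht hno m m' hm hm0 ?_ hm' hm'0 ?_ l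
  · intro b
    exact (hmA b).trans (by nlinarith)
  · intro b
    have e : ∑ k, m' k * A k b = ∑ a, (∑ k, m' k * A' k a) * B a b := by
      rw [hB]
      simp only [Matrix.mul_apply, Finset.mul_sum, Finset.sum_mul]
      rw [Finset.sum_comm]
      refine Finset.sum_congr rfl fun a _ => Finset.sum_congr rfl fun k _ => by ring
    rw [e]
    calc |∑ a, (∑ k, m' k * A' k a) * B a b| ≤ ∑ a, |(∑ k, m' k * A' k a) * B a b| :=
          Finset.abs_sum_le_sum_abs _ _
      _ ≤ ∑ _a : Fin c, t * K := by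
          refine Finset.sum_le_sum fun a _ => ?_
          rw [abs_mul]
          exact mul_le_mul (hm'A a) (hBK a b) (abs_nonneg _) ht0
      _ = c * K * t := by
          simp
          ring

end Pool.Uni
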